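import Pool.Agent.H77.Loz.Final

/-! The two halves of the rhombus `P0`, cut along the long diagonal: triangles with angles 30, 30 and
120 degrees. An isometry which preserves one half preserves the rhombus, and an isometry which
preserves the rhombus permutes the two halves. -/

set_option autoImplicit false

namespace Pool.Agent.H92.Fourteen

open Pool.Agent.H77.Loz

/-- the upper half of the rhombus -/
def H0 : Set E := {p | p ∈ P0 ∧ ca p ≤ cb p}
/-- the lower half of the rhombus -/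
def H1 : Set E := {p | p ∈ P0 ∧ cb p ≤ ca p}

lemma mem_H0 {p : E} : p ∈ H0 ↔ 0 ≤ ca p ∧ ca p ≤ cb p ∧ cb p ≤ 1 := by
  constructor
  · rintro ⟨h, h1⟩
    rw [mem_P0] at h
    exact ⟨h.1.1, h1, h.2.2⟩
  · rintro ⟨h1, h2, h3⟩
    refine ⟨?_, h2⟩
    rw [mem_P0]
    exact ⟨⟨h1, by linarith⟩, by linarith, h3⟩

lemma mem_H1 {p : E} : p ∈ H1 ↔ 0 ≤ cb p ∧ cb p ≤ ca p ∧ ca p ≤ 1 := by
  constructor
  · rintro ⟨h, h1⟩
    rw [mem_P0] at h
    exact ⟨h.2.1, h1, h.1.2⟩
  · rintro ⟨h1, h2, h3⟩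
    refine ⟨?_, h2⟩
    rw [mem_P0]
    exact ⟨⟨by linarith, h3⟩, h1, by linarith⟩

lemma union_H : H0 ∪ H1 = P0 := by
  ext p
  constructor
  · rintro (h | h) <;> exact h.1
  · intro h
    rcases le_total (ca p) (cb p) with h1 | h1
    · exact Or.inl ⟨h, h1⟩
    · exact Or.inr ⟨h, h1⟩

lemma convex_H0 : Convex ℝ H0 := by
  intro x hx y hy a b ha hb hab
  rw [mem_H0] at *
  obtain ⟨x1, x2, x3⟩ := hx
  obtain ⟨y1, y2, y3⟩ := hy
  simp only [ca_add, cb_add, ca_smul, cb_smul]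
  refine ⟨by positivity, ?_, ?_⟩
  · gcongr
  · calc a * cb x + b * cb y ≤ a * 1 + b * 1 := by gcongr
      _ = 1 := by linarith

lemma isClosed_H0 : IsClosed H0 := by
  have : H0 = P0 ∩ {p | ca p ≤ cb p} := rfl
  rw [this]
  exact isClosed_P0.inter (isClosed_le continuous_ca continuous_cb)

lemma bounded_H0 : Bornology.IsBounded H0 := bounded_P0.subset fun _ h => h.1

lemma interior_H0 {x : E} (h1 : 0 < ca x) (h2 : ca x < cb x) (h3 : cb x < 1) : x ∈ interior H0 := by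
  rw [mem_interior]
  refine ⟨{p | 0 < ca p} ∩ {p | ca p < cb p} ∩ {p | cb p < 1}, ?_, ?_, ⟨⟨h1, h2⟩, h3⟩⟩
  · rintro y ⟨⟨y1, y2⟩, y3⟩
    rw [mem_H0]
    exact ⟨le_of_lt y1, le_of_lt y2, le_of_lt y3⟩
  · exact ((isOpen_lt continuous_const continuous_ca).inter
      (isOpen_lt continuous_ca continuous_cb)).inter (isOpen_lt continuous_cb continuous_const)

lemma near_of_interior {K : Set E} {x : E} (hx : x ∈ interior K) (s t : ℝ) :
    ∃ ε : ℝ, 0 < ε ∧ mk (ca x + ε * s) (cb x + ε * t) ∈ K := by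
  have hc : ContinuousAt (fun δ : ℝ => mk (ca x + δ * s) (cb x + δ * t)) 0 := by
    have : Continuous fun δ : ℝ => mk (ca x + δ * s) (cb x + δ * t) := by
      unfold mk
      fun_prop
    exact this.continuousAt
  have h0 : (fun δ : ℝ => mk (ca x + δ * s) (cb x + δ * t)) 0 = x := by simp
  have hn : K ∈ nhds ((fun δ : ℝ => mk (ca x + δ * s) (cb x + δ * t)) 0) := by
    rw [h0]
    exact mem_interior_iff_mem_nhds.1 hx
  have hev := hc hn
  rw [Filter.mem_map, Metric.mem_nhds_iff] at hev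
  obtain ⟨ε, he, hb⟩ := hev
  refine ⟨ε / 2, by linarith, ?_⟩
  have : (ε / 2) ∈ Metric.ball (0 : ℝ) ε := by
    rw [Metric.mem_ball, Real.dist_eq, abs_lt]
    constructor <;> linarith
  exact hb this

lemma of_interior_H0 {x : E} (hx : x ∈ interior H0) : 0 < ca x ∧ ca x < cb x ∧ cb x < 1 := by
  obtain ⟨e1, p1, q1⟩ := near_of_interior hx (-1) 0
  obtain ⟨e2, p2, q2⟩ := near_of_interior hx 1 0
  obtain ⟨e3, p3, q3⟩ := near_of_interior hx 0 1
  rw [mem_H0] at q1 q2 q3
  simp only [ca_mk, cb_mk] at q1 q2 q3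
  refine ⟨by linarith [q1.1], by linarith [q2.2.1], by linarith [q3.2.2]⟩

lemma of_interior_H1 {x : E} (hx : x ∈ interior H1) : cb x < ca x := by
  obtain ⟨e3, p3, q3⟩ := near_of_interior hx 0 1
  rw [mem_H1] at q3
  simp only [ca_mk, cb_mk] at q3
  linarith [q3.2.1]

/-! ### Far pairs and the two obtuse vertices -/

lemma far_pair {x y : E} (hx : x ∈ P0) (hy : y ∈ P0) (h : Q (ca x - ca y) (cb x - cb y) = 3) :
    (x = mk 0 0 ∧ y = mk 1 1) ∨ (x = mk 1 1 ∧ y = mk 0 0) := by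
  rw [mem_P0] at hx hy
  obtain ⟨⟨x1, x2⟩, x3, x4⟩ := hx
  obtain ⟨⟨y1, y2⟩, y3, y4⟩ := hy
  obtain ⟨a, ha⟩ : ∃ a, a = ca x - ca y := ⟨_, rfl⟩
  obtain ⟨b, hb⟩ : ∃ b, b = cb x - cb y := ⟨_, rfl⟩
  rw [← ha, ← hb] at h
  unfold Q at h
  have a1 : a ≤ 1 := by linarith
  have a2 : -1 ≤ a := by linarith
  have b1 : b ≤ 1 := by linarith
  have b2 : -1 ≤ b := by linarith
  have ha2 : (1 - a) * (1 + a) = 0 := by
    nlinarith [mul_nonneg (sub_nonneg.2 a1) (by linarith : (0:ℝ) ≤ 1 + a),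
      mul_nonneg (sub_nonneg.2 b1) (by linarith : (0:ℝ) ≤ 1 + b), sq_nonneg (a - b)]
  have hb2 : (1 - b) * (1 + b) = 0 := by
    nlinarith [mul_nonneg (sub_nonneg.2 a1) (by linarith : (0:ℝ) ≤ 1 + a),
      mul_nonneg (sub_nonneg.2 b1) (by linarith : (0:ℝ) ≤ 1 + b), sq_nonneg (a - b)]
  rcases mul_eq_zero.1 ha2 with h1 | h1 <;> rcases mul_eq_zero.1 hb2 with h2 | h2
  · right
    exact ⟨ext' (by rw [ca_mk]; linarith) (by rw [cb_mk]; linarith),
      ext' (by rw [ca_mk]; linarith) (by rw [cb_mk]; linarith)⟩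
  · exfalso
    have e1 : a = 1 := by linarith
    have e2 : b = -1 := by linarith
    rw [e1, e2] at h
    norm_num at h
  · exfalso
    have e1 : a = -1 := by linarith
    have e2 : b = 1 := by linarith
    rw [e1, e2] at h
    norm_num at h
  · left
    exact ⟨ext' (by rw [ca_mk]; linarith) (by rw [cb_mk]; linarith),
      ext' (by rw [ca_mk]; linarith) (by rw [cb_mk]; linarith)⟩

lemma obtuse {x : E} (hx : x ∈ P0) (h0 : Q (ca x) (cb x) = 1)
    (h1 : Q (ca x - 1) (cb x - 1) = 1) : x = mk 0 1 ∨ x = mk 1 0 := by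
  unfold Q at h0 h1
  have hs : ca x + cb x = 1 := by linarith
  have hp : ca x * cb x = 0 := by nlinarith
  rcases mul_eq_zero.1 hp with h | h
  · left
    exact ext' (by rw [ca_mk, h]) (by rw [cb_mk]; linarith)
  · right
    exact ext' (by rw [ca_mk]; linarith) (by rw [cb_mk, h])

lemma mem_H0_iff_dist {x : E} : x ∈ H0 ↔ x ∈ P0 ∧ dist x (mk 0 1) ≤ dist x (mk 1 0) := by
  have key : dist x (mk 0 1) ≤ dist x (mk 1 0) ↔ ca x ≤ cb x := by
    rw [← pow_le_pow_iff_left₀ (dist_nonneg (x := x) (y := mk 0 1))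
      (dist_nonneg (x := x) (y := mk 1 0)) (two_ne_zero), dist_sq, dist_sq]
    simp only [ca_mk, cb_mk, Q]
    constructor <;> intro h <;> nlinarith
  rw [key]
  rfl

lemma mem_H1_iff_dist {x : E} : x ∈ H1 ↔ x ∈ P0 ∧ dist x (mk 1 0) ≤ dist x (mk 0 1) := by
  have key : dist x (mk 1 0) ≤ dist x (mk 0 1) ↔ cb x ≤ ca x := by
    rw [← pow_le_pow_iff_left₀ (dist_nonneg (x := x) (y := mk 1 0))
      (dist_nonneg (x := x) (y := mk 0 1)) (two_ne_zero), dist_sq, dist_sq]
    simp only [ca_mk, cb_mk, Q]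
    constructor <;> intro h <;> nlinarith
  rw [key]
  rfl

lemma corner_mem {a b : ℝ} (ha : a = 0 ∨ a = 1) (hb : b = 0 ∨ b = 1) : mk a b ∈ P0 := by
  rw [mem_P0, ca_mk, cb_mk]
  rcases ha with rfl | rfl <;> rcases hb with rfl | rfl <;> norm_num

/-- an isometry which maps the two acute vertices into `P0` permutes them -/
lemma acute_image (u : E ≃ᵢ E) (h0 : u (mk 0 0) ∈ P0) (h1 : u (mk 1 1) ∈ P0) :
    (u (mk 0 0) = mk 0 0 ∧ u (mk 1 1) = mk 1 1) ∨ (u (mk 0 0) = mk 1 1 ∧ u (mk 1 1) = mk 0 0) := by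
  apply far_pair h0 h1
  have h := u.dist_eq (mk 0 0) (mk 1 1)
  rw [dist_eq_iff] at h
  rw [h]
  simp only [ca_mk, cb_mk, Q]
  norm_num

lemma obtuse_image (u : E ≃ᵢ E) (h0 : u (mk 0 0) ∈ P0) (h1 : u (mk 1 1) ∈ P0) {z : E}
    (hz : u z ∈ P0) (z0 : Q (ca z) (cb z) = 1) (z1 : Q (ca z - 1) (cb z - 1) = 1) :
    u z = mk 0 1 ∨ u z = mk 1 0 := by
  have d0 := u.dist_eq z (mk 0 0)
  have d1 := u.dist_eq z (mk 1 1)
  rw [dist_eq_iff] at d0 d1
  rcases acute_image u h0 h1 with ⟨e0, e1⟩ | ⟨e0, e1⟩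
  · rw [e0] at d0
    rw [e1] at d1
    simp only [ca_mk, cb_mk, sub_zero] at d0 d1
    exact obtuse hz (by rw [d0, z0]) (by rw [d1, z1])
  · rw [e0] at d0
    rw [e1] at d1
    simp only [ca_mk, cb_mk, sub_zero] at d0 d1
    exact obtuse hz (by rw [d1, z1]) (by rw [d0, z0])

/-- an isometry preserving the rhombus permutes the two halves -/
lemma half_image (u : E ≃ᵢ E) (hu : u '' P0 = P0) :
    (u '' H0 = H0 ∧ u '' H1 = H1) ∨ (u '' H0 = H1 ∧ u '' H1 = H0) := by
  have mem : ∀ {z : E}, z ∈ P0 → u z ∈ P0 := fun {z} hz => hu ▸ ⟨z, hz, rfl⟩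
  have c00 := mem (corner_mem (a := 0) (b := 0) (Or.inl rfl) (Or.inl rfl))
  have c11 := mem (corner_mem (a := 1) (b := 1) (Or.inr rfl) (Or.inr rfl))
  have c01 := mem (corner_mem (a := 0) (b := 1) (Or.inl rfl) (Or.inr rfl))
  have c10 := mem (corner_mem (a := 1) (b := 0) (Or.inr rfl) (Or.inl rfl))
  have k01 := obtuse_image u c00 c11 c01 (by simp [Q]) (by simp [Q])
  have k10 := obtuse_image u c00 c11 c10 (by simp [Q]) (by simp [Q])
  have hne : u (mk 0 1) ≠ u (mk 1 0) := fun h => mk_ne (by norm_num) (u.injective h)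
  have gen : ∀ y, ∃ x, u x = y := fun y => ⟨u.symm y, u.apply_symm_apply y⟩
  have memP : ∀ x, u x ∈ P0 ↔ x ∈ P0 := by
    intro x
    refine ⟨fun h => ?_, mem⟩
    rw [← hu] at h
    obtain ⟨z, hz, e⟩ := h
    rwa [u.injective e] at hz
  have img : ∀ (K L : Set E), (∀ x, x ∈ K ↔ u x ∈ L) → u '' K = L := by
    intro K L h
    ext y
    constructor
    · rintro ⟨x, hx, rfl⟩
      exact (h x).1 hx
    · intro hy
      obtain ⟨x, rfl⟩ := gen y
      exact ⟨x, (h x).2 hy, rfl⟩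
  rcases k01 with k01 | k01 <;> rcases k10 with k10 | k10
  · exact absurd (k01.trans k10.symm) hne
  · left
    constructor
    · apply img
      intro x
      rw [mem_H0_iff_dist, mem_H0_iff_dist, memP, ← k01, ← k10, u.dist_eq, u.dist_eq, k01, k10]
    · apply img
      intro x
      rw [mem_H1_iff_dist, mem_H1_iff_dist, memP, ← k01, ← k10, u.dist_eq, u.dist_eq, k01, k10]
  · right
    constructor
    · apply img
      intro x
      rw [mem_H0_iff_dist, mem_H1_iff_dist, memP, ← u.dist_eq x (mk 0 1), ← u.dist_eq x (mk 1 0),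
        k01, k10]
    · apply img
      intro x
      rw [mem_H1_iff_dist, mem_H0_iff_dist, memP, ← u.dist_eq x (mk 0 1), ← u.dist_eq x (mk 1 0),
        k01, k10]
  · exact absurd (k01.trans k10.symm) hne

/-- the point reflection in the centre of the rhombus -/
noncomputable def rho : E ≃ᵢ E := isoOf 3 1 1

lemma ca_rho (x : E) : ca (rho x) = 1 - ca x := by
  unfold rho
  rw [isoOf_apply, ca_actF]
  simp [A11, A12]
  ring

lemma cb_rho (x : E) : cb (rho x) = 1 - cb x := by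
  unfold rho
  rw [isoOf_apply, cb_actF]
  simp [A21, A22]
  ring

lemma rho_rho (x : E) : rho (rho x) = x := by
  apply ext'
  · rw [ca_rho, ca_rho]; ring
  · rw [cb_rho, cb_rho]; ring

lemma rho_H0 : rho '' H0 = H1 := by
  ext y
  constructor
  · rintro ⟨x, hx, rfl⟩
    rw [mem_H0] at hx
    rw [mem_H1, ca_rho, cb_rho]
    exact ⟨by linarith [hx.2.2], by linarith [hx.2.1], by linarith [hx.1]⟩
  · intro hy
    refine ⟨rho y, ?_, rho_rho y⟩
    rw [mem_H1] at hy
    rw [mem_H0, ca_rho, cb_rho]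
    exact ⟨by linarith [hy.2.2], by linarith [hy.2.1], by linarith [hy.1]⟩

lemma rho_H1 : rho '' H1 = H0 := by
  rw [← rho_H0, ← Set.image_comp]
  have : (rho : E → E) ∘ rho = id := by
    ext1 x
    exact rho_rho x
  rw [this, Set.image_id]

lemma rho_P0 : rho '' P0 = P0 := by
  rw [← union_H, Set.image_union, rho_H0, rho_H1, Set.union_comm]

lemma rho_eq_iff {x y : E} : y = rho x ↔ midpoint ℝ x y = mk (1 / 2) (1 / 2) := by
  constructor
  · rintro rfl
    apply ext'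
    · rw [ca_midpoint, ca_rho, ca_mk]; ring
    · rw [cb_midpoint, cb_rho, cb_mk]; ring
  · intro h
    have h1 := congrArg ca h
    have h2 := congrArg cb h
    rw [ca_midpoint, ca_mk] at h1
    rw [cb_midpoint, cb_mk] at h2
    apply ext'
    · rw [ca_rho]; linarith
    · rw [cb_rho]; linarith

/-- an isometry preserving the half preserves the rhombus -/
lemma rhombus_of_half (u : E ≃ᵢ E) (hu : u '' H0 = H0) : u '' P0 = P0 := by
  have mem : ∀ {z : E}, z ∈ H0 → u z ∈ H0 := fun {z} hz => hu ▸ ⟨z, hz, rfl⟩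
  have c00 : mk 0 0 ∈ H0 := by rw [mem_H0, ca_mk, cb_mk]; norm_num
  have c11 : mk 1 1 ∈ H0 := by rw [mem_H0, ca_mk, cb_mk]; norm_num
  have hm : u (mk (1 / 2) (1 / 2)) = mk (1 / 2) (1 / 2) := by
    have e : midpoint ℝ (mk 0 0) (mk 1 1) = mk (1 / 2) (1 / 2) := by
      apply ext'
      · rw [ca_midpoint]; simp
      · rw [cb_midpoint]; simp
    have e' : midpoint ℝ (mk 1 1) (mk 0 0) = mk (1 / 2) (1 / 2) := by
      rw [midpoint_comm, e]
    rw [← e, IsometryEquiv.map_midpoint]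
    rcases acute_image u (mem c00).1 (mem c11).1 with ⟨e0, e1⟩ | ⟨e0, e1⟩
    · rw [e0, e1]
    · rw [e0, e1, e', e]
  have hcomm : ∀ x, u (rho x) = rho (u x) := by
    intro x
    rw [rho_eq_iff, ← IsometryEquiv.map_midpoint, (rho_eq_iff (x := x)).1 rfl, hm]
  have h1 : u '' H1 = H1 := by
    rw [← rho_H0, ← Set.image_comp]
    have : (u : E → E) ∘ rho = rho ∘ u := by
      ext1 x
      exact hcomm x
    rw [this, Set.image_comp, hu]
  rw [← union_H, Set.image_union, hu, h1]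

/-! ### The half as a triangle -/

lemma H0_eq : H0 = convexHull ℝ {mk 0 0, mk 1 1, mk 0 1} := by
  apply Set.Subset.antisymm
  · intro x hx
    rw [mem_H0] at hx
    obtain ⟨h1, h2, h3⟩ := hx
    have hc : Convex ℝ (convexHull ℝ {mk 0 0, mk 1 1, mk 0 1} : Set E) := convex_convexHull ℝ _
    have m0 : mk 0 0 ∈ (convexHull ℝ {mk 0 0, mk 1 1, mk 0 1} : Set E) :=
      subset_convexHull ℝ _ (by simp)
    have m1 : mk 1 1 ∈ (convexHull ℝ {mk 0 0, mk 1 1, mk 0 1} : Set E) :=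
      subset_convexHull ℝ _ (by simp)
    have m2 : mk 0 1 ∈ (convexHull ℝ {mk 0 0, mk 1 1, mk 0 1} : Set E) :=
      subset_convexHull ℝ _ (by simp)
    have n0 : mk (ca x) (ca x) ∈ (convexHull ℝ {mk 0 0, mk 1 1, mk 0 1} : Set E) :=
      hc.segment_subset m0 m1 (mem_segment_mk (r := ca x) _ h1 (by linarith)
        (by rw [ca_mk]; ring) (by rw [cb_mk]; ring))
    have n1 : mk (ca x) 1 ∈ (convexHull ℝ {mk 0 0, mk 1 1, mk 0 1} : Set E) :=
      hc.segment_subset m2 m1 (mem_segment_mk (r := ca x) _ h1 (by linarith)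
        (by rw [ca_mk]; ring) (by rw [cb_mk]; ring))
    rcases eq_or_lt_of_le (show ca x ≤ 1 by linarith) with e | e
    · have : x = mk (ca x) 1 := ext' (by rw [ca_mk]) (by rw [cb_mk]; linarith)
      rw [this]
      exact n1
    · refine hc.segment_subset n0 n1 (mem_segment_mk (r := (cb x - ca x) / (1 - ca x)) _ ?_ ?_ ?_ ?_)
      · exact div_nonneg (by linarith) (by linarith)
      · rw [div_le_one (by linarith)]
        linarith
      · ring
      · have : (1 - ca x) ≠ 0 := by linarith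
        field_simp
        ring
  · apply convexHull_min _ convex_H0
    intro x hx
    simp only [Set.mem_insert_iff, Set.mem_singleton_iff] at hx
    rcases hx with rfl | rfl | rfl <;> rw [mem_H0] <;> simp

lemma extreme_H0 {v : E} (hv : v = mk 0 0 ∨ v = mk 1 1 ∨ v = mk 0 1) :
    v ∈ Set.extremePoints ℝ H0 := by
  have hP : v ∈ Set.extremePoints ℝ P0 := by
    rcases hv with rfl | rfl | rfl
    · exact corner_extreme (Or.inl rfl) (Or.inl rfl)
    · exact corner_extreme (Or.inr rfl) (Or.inr rfl)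
    · exact corner_extreme (Or.inl rfl) (Or.inr rfl)
  have hH : v ∈ H0 := by
    rcases hv with rfl | rfl | rfl <;> rw [mem_H0] <;> simp
  exact inter_extremePoints_subset_extremePoints_of_subset (fun _ h => h.1) ⟨hH, hP⟩

/-- if the half is the convex hull of three points then these are its vertices -/
lemma vertices_of_hull {a b c : E} (h : H0 = convexHull ℝ {a, b, c}) {v : E}
    (hv : v = mk 0 0 ∨ v = mk 1 1 ∨ v = mk 0 1) : v = a ∨ v = b ∨ v = c := by
  have h1 := extreme_H0 hv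
  rw [h] at h1
  have h2 := extremePoints_convexHull_subset h1
  simpa using h2

end Pool.Agent.H92.Fourteen
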